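import Mathlib
import Pool.Agent.Lib.helper18.Spec
import Pool.Agent.Lib.helper18.Gr

set_option autoImplicit false

open Classical Matrix

namespace Pool.Agent.Results.MP_4a987e_co.Spider

/-- Largest adjacency eigenvalue. -/
noncomputable def rho {n : ℕ} (G : SimpleGraph (Fin n)) : ℝ := sSup (spectrum ℝ (G.adjMatrix ℝ))

/-- Energy: the sum of the absolute values of the adjacency eigenvalues, with multiplicity. -/
noncomputable def energy {n : ℕ} (G : SimpleGraph (Fin n)) : ℝ :=
  ((G.adjMatrix ℝ).charpoly.roots.map (fun t => |t|)).sum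

def f (a b : Fin 32) : Bool :=
  a != b && (a.val / 2 == b.val / 2 || (a.val == 0 && b.val % 2 == 0) ||
    (b.val == 0 && a.val % 2 == 0))

def G0 : SimpleGraph (Fin 32) := H18Gr.mk f (by decide +kernel) (by decide +kernel)

def sw (a : Fin 32) : Fin 32 := if a.val % 2 = 0 then a + 1 else a - 1

def x (a : Fin 32) : ℤ := if a.val = 0 then 15 else if a.val = 1 then 0 else
  if a.val % 2 = 0 then 4 else 1

lemma edges : G0.edgeSet.ncard = 31 := by
  have := H18Gr.two_edges f (by decide +kernel) (by decide +kernel)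
  have e : ∑ v, (Finset.univ.filter (fun w => f v w = true)).card = 62 := by decide +kernel
  unfold G0
  omega

lemma en : 32 ≤ energy G0 := by
  have inv : Function.Involutive sw := by unfold Function.Involutive; decide +kernel
  have := H18Gr.perm_le_energy (H18Gr.herm G0) inv.toPerm
  refine le_trans (le_of_eq ?_) this
  have h : ∀ i, G0.Adj (sw i) i := by
    show ∀ i, f (sw i) i = true
    decide +kernel
  simp [h]

lemma rh : 4 ≤ rho G0 := by
  have := H18Spec.rayleigh_le_sSup (H18Gr.herm G0) (fun i => (x i : ℝ))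
  have e1 : x ⬝ᵥ (H18Gr.zm f *ᵥ x) = 1920 := by decide +kernel
  have e2 : x ⬝ᵥ x = 480 := by decide +kernel
  have a1 : (fun i => (x i : ℝ)) ⬝ᵥ (G0.adjMatrix ℝ *ᵥ fun i => (x i : ℝ)) = 1920 := by
    unfold G0
    rw [H18Gr.adjMatrix_mk]
    simp only [dotProduct, mulVec, map_apply] at e1 ⊢
    exact_mod_cast e1
  have a2 : (fun i => (x i : ℝ)) ⬝ᵥ (fun i => (x i : ℝ)) = 480 := by
    simp only [dotProduct] at e2 ⊢
    exact_mod_cast e2
  rw [a1, a2] at this
  unfold rho
  linarith

theorem result : ∃ (n : ℕ) (G : SimpleGraph (Fin n)), G.Connected ∧ 1 ≤ G.edgeSet.ncard ∧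
    2 * (G.edgeSet.ncard : ℝ) / √(rho G) < energy G := by
  refine ⟨32, G0, ?_, by rw [edges]; norm_num, ?_⟩
  · refine H18Gr.conn_of_parent G0 0 (fun v => if v.val % 2 = 0 then 0 else v - 1) (fun v => v.val) ?_
    show ∀ v : Fin 32, v = 0 ∨ (f v _ = true ∧ _)
    decide +kernel
  · have h2 : 2 ≤ √(rho G0) := Real.le_sqrt_of_sq_le (by linarith [rh])
    rw [edges, div_lt_iff₀ (by linarith)]
    have := en
    push_cast
    nlinarith

end Pool.Agent.Results.MP_4a987e_co.Spider
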